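import Mathlib

/-!
# Quadratic forms and spectral data of complex matrices

`fc U x` is the matrix `U diag(x) U^*`, `q M v` is the real part of `v^* M v` and `nsq v` is the
squared length of the vector `v`.
-/

set_option autoImplicit false

open Matrix

namespace Pool.Agent.BourinQ

variable {n : ℕ}

/-- The matrix `U diag(x) U^*`. -/
noncomputable def fc (U : Matrix (Fin n) (Fin n) ℂ) (x : Fin n → ℝ) : Matrix (Fin n) (Fin n) ℂ :=
  U * diagonal (fun i => (x i : ℂ)) * star U

/-- The real part of the quadratic form `v^* M v`. -/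
noncomputable def q (M : Matrix (Fin n) (Fin n) ℂ) (v : Fin n → ℂ) : ℝ :=
  (star v ⬝ᵥ (M *ᵥ v)).re

/-- The squared length. -/
noncomputable def nsq (v : Fin n → ℂ) : ℝ := ∑ i, Complex.normSq (v i)

lemma nsq_nonneg (v : Fin n → ℂ) : 0 ≤ nsq v :=
  Finset.sum_nonneg fun _ _ => Complex.normSq_nonneg _

lemma nsq_eq_zero {v : Fin n → ℂ} (h : nsq v = 0) : v = 0 := by
  ext i
  have := (Finset.sum_eq_zero_iff_of_nonneg (fun i _ => Complex.normSq_nonneg (v i))).1 h i
    (Finset.mem_univ i)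
  simpa using this

lemma nsq_pos {v : Fin n → ℂ} (h : v ≠ 0) : 0 < nsq v :=
  lt_of_le_of_ne (nsq_nonneg v) fun h' => h (nsq_eq_zero h'.symm)

lemma star_dot_self (v : Fin n → ℂ) : star v ⬝ᵥ v = (nsq v : ℂ) := by
  simp only [dotProduct, nsq, Pi.star_apply, Complex.ofReal_sum]
  refine Finset.sum_congr rfl fun i _ => ?_
  rw [Complex.star_def, Complex.normSq_eq_conj_mul_self]

lemma q_add (M N : Matrix (Fin n) (Fin n) ℂ) (v : Fin n → ℂ) : q (M + N) v = q M v + q N v := by
  simp [q, add_mulVec, dotProduct_add]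

lemma q_sub (M N : Matrix (Fin n) (Fin n) ℂ) (v : Fin n → ℂ) : q (M - N) v = q M v - q N v := by
  simp [q, sub_mulVec, dotProduct_sub]

lemma q_smul (c : ℝ) (M : Matrix (Fin n) (Fin n) ℂ) (v : Fin n → ℂ) :
    q ((c : ℂ) • M) v = c * q M v := by
  simp [q, smul_mulVec, dotProduct_smul]

lemma q_one (v : Fin n → ℂ) : q 1 v = nsq v := by
  rw [q, one_mulVec, star_dot_self, Complex.ofReal_re]

lemma q_conj (W M : Matrix (Fin n) (Fin n) ℂ) (v : Fin n → ℂ) :
    q (W * M * star W) v = q M (star W *ᵥ v) := by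
  simp only [q]
  congr 1
  rw [star_mulVec, ← dotProduct_mulVec, star_eq_conjTranspose, conjTranspose_conjTranspose,
    mulVec_mulVec, mulVec_mulVec, Matrix.mul_assoc]

lemma q_conj' (W M : Matrix (Fin n) (Fin n) ℂ) (v : Fin n → ℂ) :
    q (star W * M * W) v = q M (W *ᵥ v) := by
  have := q_conj (star W) M v
  rwa [star_star] at this

lemma q_star_mul_self (W : Matrix (Fin n) (Fin n) ℂ) (v : Fin n → ℂ) :
    q (star W * W) v = nsq (W *ᵥ v) := by
  have := q_conj' W 1 v
  rwa [Matrix.mul_one, q_one] at this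

lemma q_mul_star_self (W : Matrix (Fin n) (Fin n) ℂ) (v : Fin n → ℂ) :
    q (W * star W) v = nsq (star W *ᵥ v) := by
  have := q_conj W 1 v
  rwa [Matrix.mul_one, q_one] at this

lemma q_diagonal (x : Fin n → ℝ) (v : Fin n → ℂ) :
    q (diagonal fun i => (x i : ℂ)) v = ∑ i, x i * Complex.normSq (v i) := by
  simp only [q, dotProduct, Pi.star_apply, mulVec_diagonal, Complex.re_sum]
  refine Finset.sum_congr rfl fun i _ => ?_
  rw [Complex.star_def, mul_left_comm, ← Complex.normSq_eq_conj_mul_self]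
  simp [← Complex.ofReal_mul]

lemma q_fc (U : Matrix (Fin n) (Fin n) ℂ) (x : Fin n → ℝ) (v : Fin n → ℂ) :
    q (fc U x) v = ∑ i, x i * Complex.normSq ((star U *ᵥ v) i) := by
  rw [fc, q_conj, q_diagonal]

lemma nsq_unitary {U : Matrix (Fin n) (Fin n) ℂ} (hU : U ∈ unitaryGroup (Fin n) ℂ)
    (v : Fin n → ℂ) : nsq (U *ᵥ v) = nsq v := by
  rw [← q_star_mul_self, (mem_unitaryGroup_iff').1 hU, q_one]

lemma nsq_star_unitary {U : Matrix (Fin n) (Fin n) ℂ} (hU : U ∈ unitaryGroup (Fin n) ℂ)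
    (v : Fin n → ℂ) : nsq (star U *ᵥ v) = nsq v :=
  nsq_unitary (Unitary.star_mem hU) v

lemma star_fc (U : Matrix (Fin n) (Fin n) ℂ) (x : Fin n → ℝ) : star (fc U x) = fc U x := by
  simp only [fc, star_mul, star_star, Matrix.mul_assoc]
  congr 2
  rw [star_eq_conjTranspose, diagonal_conjTranspose]
  congr 1
  ext i
  simp

lemma fc_mul {U : Matrix (Fin n) (Fin n) ℂ} (hU : U ∈ unitaryGroup (Fin n) ℂ) (x y : Fin n → ℝ) :
    fc U x * fc U y = fc U (fun i => x i * y i) := by
  have h : star U * U = 1 := (mem_unitaryGroup_iff').1 hU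
  simp only [fc]
  calc U * diagonal (fun i => (x i : ℂ)) * star U * (U * diagonal (fun i => (y i : ℂ)) * star U)
      = U * diagonal (fun i => (x i : ℂ)) * (star U * U) * diagonal (fun i => (y i : ℂ)) * star U := by
        simp only [Matrix.mul_assoc]
    _ = _ := by
        rw [h, Matrix.mul_one, Matrix.mul_assoc U, diagonal_mul_diagonal]
        simp

lemma fc_add (U : Matrix (Fin n) (Fin n) ℂ) (x y : Fin n → ℝ) :
    fc U x + fc U y = fc U (fun i => x i + y i) := by
  simp only [fc, ← Matrix.add_mul, ← Matrix.mul_add, diagonal_add]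
  simp

lemma fc_mulVec_coord {U : Matrix (Fin n) (Fin n) ℂ} (hU : U ∈ unitaryGroup (Fin n) ℂ)
    (x : Fin n → ℝ) (v : Fin n → ℂ) (i : Fin n) :
    (star U *ᵥ (fc U x *ᵥ v)) i = (x i : ℂ) * (star U *ᵥ v) i := by
  have h : star U * U = 1 := (mem_unitaryGroup_iff').1 hU
  rw [fc, mulVec_mulVec, ← Matrix.mul_assoc, ← Matrix.mul_assoc, h, Matrix.one_mul,
    ← mulVec_mulVec, mulVec_diagonal]

end Pool.Agent.BourinQ
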