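import Pool.Agent.Lib.MP_4777ae_an.Main

/-!
# Bourin's inequality, conclusion
-/

set_option autoImplicit false

open Matrix

namespace Pool.Agent.BourinQ

variable {n : ℕ}

lemma nsq_fc {U : Matrix (Fin n) (Fin n) ℂ} (hU : U ∈ unitaryGroup (Fin n) ℂ) (x : Fin n → ℝ)
    (w : Fin n → ℂ) : nsq (fc U x *ᵥ w) = q (fc U fun i => x i * x i) w := by
  rw [← fc_mul hU, ← q_star_mul_self, star_fc]

lemma fc_mul_rpow {U : Matrix (Fin n) (Fin n) ℂ} (hU : U ∈ unitaryGroup (Fin n) ℂ)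
    {x : Fin n → ℝ} (hx : ∀ i, 0 ≤ x i) {r s u : ℝ} (hr : 0 ≤ r) (hs : 0 ≤ s) (h : r + s = u) :
    (fc U fun i => x i ^ r) * (fc U fun i => x i ^ s) = fc U fun i => x i ^ u := by
  rw [fc_mul hU]
  congr 1
  ext i
  rw [← h, Real.rpow_add_of_nonneg (hx i) hr hs]

/-- The common estimate for the two halves of the range of the exponent. -/
lemma exists_bound {N : Matrix (Fin n) (Fin n) ℂ → ℝ} (hN : UINorm N)
    {U V : Matrix (Fin n) (Fin n) ℂ} (hU : U ∈ unitaryGroup (Fin n) ℂ)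
    (hV : V ∈ unitaryGroup (Fin n) ℂ) {x z : Fin n → ℝ} (hx : ∀ i, 0 ≤ x i)
    (hz : ∀ i, 0 ≤ z i) {t : ℝ} (ht : 0 < t) (ht2 : t ≤ 1 / 2) :
    ∃ K : Matrix (Fin n) (Fin n) ℂ, K.IsHermitian ∧ N K ≤ N (fc U x + fc V z) ∧
      ∀ v, nsq (star ((fc U fun i => x i ^ t) * fc V fun i => z i ^ (1 / 2 - t)) *ᵥ v) +
        nsq (star ((fc V fun i => z i ^ t) * fc U fun i => x i ^ (1 / 2 - t)) *ᵥ v) ≤ q K v := by
  obtain ⟨E, hE, y, hy, hy0, hS, hH⟩ := exists_mean (U := U) (V := V) hx hz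
  set θ : ℝ := min (1 - 2 * t) (1 / 2) with hθ
  have hθ1 : θ ≤ 1 - 2 * t := min_le_left _ _
  have hθ3 : θ ≤ 1 / 2 := min_le_right _ _
  have hθ0 : 0 ≤ θ := le_min (by linarith) (by norm_num)
  have hθ2 : 1 - 2 * t ≤ 2 * θ := by
    rcases min_choice (1 - 2 * t) (1 / 2) with h | h
    · rw [hθ, h]; linarith
    · rw [hθ, h]; linarith
  obtain ⟨W₁, hW₁, h₁⟩ := key hU hV hE hx hz hy hy0 hH ht ht2 hθ1 hθ2
  obtain ⟨W₂, hW₂, h₂⟩ := key hV hU hE hz hx hy hy0 (fun v => by rw [hH, add_comm]) ht ht2 hθ1 hθ2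
  refine ⟨((2 - 4 * θ : ℝ) : ℂ) • fc E y + ((2 * θ : ℝ) : ℂ) • (fc W₁ y + fc W₂ y), ?_, ?_, ?_⟩
  · exact (herm_smul _ (isHermitian_fc E y)).add
      (herm_smul _ ((isHermitian_fc W₁ y).add (isHermitian_fc W₂ y)))
  · have h3 := hN.add (((2 - 4 * θ : ℝ) : ℂ) • fc E y) (((2 * θ : ℝ) : ℂ) • (fc W₁ y + fc W₂ y))
    rw [hN.smul_nonneg (by linarith), hN.smul_nonneg (by linarith)] at h3
    have h4 := hN.add (fc W₁ y) (fc W₂ y)
    rw [hN.fc' hW₁, hN.fc' hW₂] at h4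
    rw [hN.fc' hE] at h3
    rw [hS, hN.smul_nonneg (by norm_num), hN.fc' hE]
    have h5 := mul_le_mul_of_nonneg_left h4 (by linarith : (0 : ℝ) ≤ 2 * θ)
    linarith
  · intro v
    have e1 : ∀ {U V : Matrix (Fin n) (Fin n) ℂ} (_ : V ∈ unitaryGroup (Fin n) ℂ)
        (x z : Fin n → ℝ) (_ : ∀ i, 0 ≤ z i),
        nsq (star ((fc U fun i => x i ^ t) * fc V fun i => z i ^ (1 / 2 - t)) *ᵥ v) =
          q (fc V fun i => z i ^ (1 - 2 * t)) ((fc U fun i => x i ^ t) *ᵥ v) := by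
      intro U V hV x z hz
      rw [star_mul, star_fc, star_fc, ← mulVec_mulVec, nsq_fc hV]
      congr 2
      ext i
      rw [← Real.rpow_add_of_nonneg (hz i) (by linarith) (by linarith)]
      congr 1
      ring
    have e2 : ∀ {U : Matrix (Fin n) (Fin n) ℂ} (_ : U ∈ unitaryGroup (Fin n) ℂ)
        (x : Fin n → ℝ) (_ : ∀ i, 0 ≤ x i),
        q (fc U fun i => x i ^ (1 - 2 * t)) ((fc U fun i => x i ^ t) *ᵥ v) = q (fc U x) v := by
      intro U hU x hx
      have h5 := q_conj' (fc U fun i => x i ^ t) (fc U fun i => x i ^ (1 - 2 * t)) v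
      rw [← h5, star_fc, fc_mul_rpow hU hx ht.le (by linarith) rfl,
        fc_mul_rpow hU hx (by linarith) ht.le (u := 1) (by ring)]
      simp only [Real.rpow_one]
    rw [e1 hV x z hz, e1 hU z x hx, q_add, q_smul, q_smul, q_add]
    have h6 := h₁ v
    have h7 := h₂ v
    rw [e2 hU x hx] at h6
    rw [e2 hV z hz] at h7
    have h8 := hH v
    nlinarith

/-- Bourin's inequality for positive semidefinite matrices in diagonal form. -/
theorem bourin {N : Matrix (Fin n) (Fin n) ℂ → ℝ} (hN : UINorm N)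
    {U V : Matrix (Fin n) (Fin n) ℂ} (hU : U ∈ unitaryGroup (Fin n) ℂ)
    (hV : V ∈ unitaryGroup (Fin n) ℂ) {x z : Fin n → ℝ} (hx : ∀ i, 0 ≤ x i)
    (hz : ∀ i, 0 ≤ z i) {t : ℝ} (ht : 0 < t) (ht1 : t < 1) :
    N ((fc U fun i => x i ^ t) * (fc V fun i => z i ^ (1 - t)) +
      (fc V fun i => z i ^ t) * (fc U fun i => x i ^ (1 - t))) ≤ N (fc U x + fc V z) := by
  have hSh : (fc U x + fc V z).IsHermitian := (isHermitian_fc U x).add (isHermitian_fc V z)
  have hsq : ∀ v, nsq (star (fc U fun i => x i ^ (1 / 2 : ℝ)) *ᵥ v) +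
      nsq (star (fc V fun i => z i ^ (1 / 2 : ℝ)) *ᵥ v) = q (fc U x + fc V z) v := by
    intro v
    rw [star_fc, star_fc, nsq_fc hU, nsq_fc hV, q_add]
    congr 3
    · ext i
      rw [← Real.rpow_add_of_nonneg (hx i) (by norm_num) (by norm_num)]
      norm_num
    · ext i
      rw [← Real.rpow_add_of_nonneg (hz i) (by norm_num) (by norm_num)]
      norm_num
  rcases le_total t (1 / 2) with h | h
  · obtain ⟨K, hK, hNK, hq⟩ := exists_bound hN hU hV hx hz ht h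
    have h1 := hN.sum_two ((fc U fun i => x i ^ t) * fc V fun i => z i ^ (1 / 2 - t))
      ((fc V fun i => z i ^ t) * fc U fun i => x i ^ (1 / 2 - t))
      (fc V fun i => z i ^ (1 / 2 : ℝ)) (fc U fun i => x i ^ (1 / 2 : ℝ)) K (fc U x + fc V z)
      hK hSh hq (fun v => by rw [add_comm]; exact (hsq v).le)
    rw [star_fc, star_fc, Matrix.mul_assoc, Matrix.mul_assoc,
      fc_mul_rpow hV hz (by linarith) (by norm_num) (u := 1 - t) (by ring),
      fc_mul_rpow hU hx (by linarith) (by norm_num) (u := 1 - t) (by ring)] at h1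
    linarith
  · obtain ⟨K, hK, hNK, hq⟩ := exists_bound hN hU hV hx hz (t := 1 - t) (by linarith)
      (by linarith)
    have h1 := hN.sum_two (fc U fun i => x i ^ (1 / 2 : ℝ)) (fc V fun i => z i ^ (1 / 2 : ℝ))
      ((fc V fun i => z i ^ (1 - t)) * fc U fun i => x i ^ (1 / 2 - (1 - t)))
      ((fc U fun i => x i ^ (1 - t)) * fc V fun i => z i ^ (1 / 2 - (1 - t))) (fc U x + fc V z) K
      hSh hK (fun v => (hsq v).le) (fun v => by rw [add_comm]; exact hq v)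
    rw [star_mul, star_mul, star_fc, star_fc, star_fc, star_fc, ← Matrix.mul_assoc,
      ← Matrix.mul_assoc, fc_mul_rpow hU hx (by norm_num) (by linarith) (u := t) (by ring),
      fc_mul_rpow hV hz (by norm_num) (by linarith) (u := t) (by ring)] at h1
    linarith

end Pool.Agent.BourinQ
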