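import Mathlib

/-!
# Two scalar inequalities
-/

set_option autoImplicit false

namespace Pool.Agent.BourinQ

lemma scalar_one {t a l : ℝ} (ht : 0 < t) (ht2 : t ≤ 1 / 2) (ha : 0 < a) (hl : 0 ≤ l) :
    l ^ (1 - 2 * t) ≤ (1 - 2 * t) * ((a ^ 2)⁻¹ * l) + 2 * t * a ^ (1 / t - 2) := by
  have h := Real.geom_mean_le_arith_mean2_weighted (w₁ := 1 - 2 * t) (w₂ := 2 * t)
    (p₁ := (a ^ 2)⁻¹ * l) (p₂ := a ^ (1 / t - 2)) (by linarith) (by linarith) (by positivity)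
    (by positivity) (by ring)
  refine le_trans (le_of_eq ?_) h
  have h1 : ((a ^ 2)⁻¹ * l) ^ (1 - 2 * t) = (a ^ 2)⁻¹ ^ (1 - 2 * t) * l ^ (1 - 2 * t) :=
    Real.mul_rpow (by positivity) hl
  have h2 : ((a ^ 2)⁻¹ : ℝ) = a ^ (-2 : ℝ) := by
    rw [Real.rpow_neg ha.le]
    norm_num
  rw [h1, h2, ← Real.rpow_mul ha.le, ← Real.rpow_mul ha.le, mul_right_comm,
    ← Real.rpow_add ha]
  have h3 : -2 * (1 - 2 * t) + (1 / t - 2) * (2 * t) = 0 := by
    field_simp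
    ring
  rw [h3, Real.rpow_zero, one_mul]

lemma scalar_two {t a l : ℝ} (ht : 0 < t) (ht2 : t ≤ 1 / 2) (ha : 0 < a) (hl : 0 ≤ l) :
    (1 - t) * (a ^ (1 / t - 2) * l ^ (2 * t)) ≤
      t * l + (1 - 2 * t) * (a ^ (1 / t - 2) * a * l ^ t) := by
  have ht1 : 0 < 1 - t := by linarith
  have h := Real.geom_mean_le_arith_mean2_weighted (w₁ := t / (1 - t)) (w₂ := (1 - 2 * t) / (1 - t))
    (p₁ := l) (p₂ := a ^ (1 / t - 2) * a * l ^ t) (by positivity)
    (div_nonneg (by linarith) ht1.le) hl (by positivity) (by field_simp; ring)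
  have h1 : a ^ (1 / t - 2) * a = a ^ (1 / t - 1) := by
    rw [show (1 / t - 1 : ℝ) = (1 / t - 2) + 1 by ring, Real.rpow_add ha, Real.rpow_one]
  have h2 : l ^ (t / (1 - t)) * (a ^ (1 / t - 2) * a * l ^ t) ^ ((1 - 2 * t) / (1 - t)) =
      a ^ (1 / t - 2) * l ^ (2 * t) := by
    rw [h1, Real.mul_rpow (by positivity) (by positivity), ← Real.rpow_mul ha.le,
      ← Real.rpow_mul hl]
    have h3 : (1 / t - 1) * ((1 - 2 * t) / (1 - t)) = 1 / t - 2 := by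
      field_simp
    have h4 : t / (1 - t) + t * ((1 - 2 * t) / (1 - t)) = 2 * t := by
      field_simp
      ring
    rw [h3, mul_left_comm, ← Real.rpow_add_of_nonneg hl (by positivity)
      (mul_nonneg ht.le (div_nonneg (by linarith) ht1.le)), h4]
  rw [h2] at h
  calc (1 - t) * (a ^ (1 / t - 2) * l ^ (2 * t))
      ≤ (1 - t) * (t / (1 - t) * l + (1 - 2 * t) / (1 - t) * (a ^ (1 / t - 2) * a * l ^ t)) :=
        mul_le_mul_of_nonneg_left h ht1.le
    _ = _ := by field_simp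

end Pool.Agent.BourinQ
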