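import Pool.Agent.Lib.MP_4777ae_an.Minimax
import Pool.Agent.Lib.MP_4777ae_an.Scalar

/-!
# The key eigenvalue inequality

For positive semidefinite `A`, `B`, `H = (A + B) / 2`, `0 < t ≤ 1 / 2` and `a = A ^ t`, the matrix
`a (A ^ (1 - 2 t) + B ^ (1 - 2 t)) a / 2` is at most `2 t A + κ H + θ W D W^*`, where `W` is
unitary, `D` is the diagonal matrix of the eigenvalues of `H` in decreasing order,
`θ = min (1 - 2 t) (1 / 2)` and `κ = 1 - 2 t - θ`.
-/

set_option autoImplicit false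

open Matrix

namespace Pool.Agent.BourinQ

variable {n : ℕ}

lemma nsq_sub_smul (c : ℝ) (x y : Fin n → ℂ) :
    nsq (fun i => (c : ℂ) * x i - y i) =
      c ^ 2 * nsq x - 2 * c * (star y ⬝ᵥ x).re + nsq y := by
  simp only [nsq, dotProduct, Pi.star_apply, Complex.re_sum, Finset.mul_sum,
    ← Finset.sum_sub_distrib, ← Finset.sum_add_distrib]
  refine Finset.sum_congr rfl fun i _ => ?_
  simp only [Complex.normSq_apply, Complex.sub_re, Complex.sub_im, Complex.mul_re, Complex.mul_im,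
    Complex.ofReal_re, Complex.ofReal_im, Complex.star_def, Complex.conj_re, Complex.conj_im]
  ring

lemma dot_unitary {E : Matrix (Fin n) (Fin n) ℂ} (hE : E ∈ unitaryGroup (Fin n) ℂ)
    (v u : Fin n → ℂ) : star (star E *ᵥ v) ⬝ᵥ (star E *ᵥ u) = star v ⬝ᵥ u := by
  have h : E * star E = 1 := (mem_unitaryGroup_iff).1 hE
  rw [star_mulVec, ← dotProduct_mulVec, mulVec_mulVec, star_eq_conjTranspose,
    conjTranspose_conjTranspose, ← star_eq_conjTranspose, h, one_mulVec]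

/-- The reflection trick. -/
lemma reflection {E : Matrix (Fin n) (Fin n) ℂ} (hE : E ∈ unitaryGroup (Fin n) ℂ)
    {y : Fin n → ℝ} (hy : Antitone y) (hy0 : ∀ i, 0 ≤ y i) (j : Fin n) {u v : Fin n → ℂ}
    (hu : ∀ i < j, (star E *ᵥ u) i = 0) {c : ℝ} (hc : c * nsq u = (star v ⬝ᵥ u).re) :
    2 * (c ^ 2 * q (fc E y) u) ≤ q (fc E y) v + y j * nsq v ∧
      c ^ 2 * q (fc E y) u ≤ y j * nsq v := by
  set u' := star E *ᵥ u with hu'
  set v' := star E *ᵥ v with hv'
  have hnu : nsq u' = nsq u := nsq_star_unitary hE u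
  have hnv : nsq v' = nsq v := nsq_star_unitary hE v
  have hd : (star v' ⬝ᵥ u').re = (star v ⬝ᵥ u).re := by rw [dot_unitary hE]
  have h2 : nsq (fun i => ((2 * c : ℝ) : ℂ) * u' i - v' i) = nsq v := by
    rw [nsq_sub_smul, hnu, hnv, hd, ← hc]
    ring
  have h1 : 0 ≤ nsq (fun i => ((c : ℝ) : ℂ) * u' i - v' i) := nsq_nonneg _
  rw [nsq_sub_smul, hnu, hnv, hd, ← hc] at h1
  have h3 : c ^ 2 * nsq u ≤ nsq v := by nlinarith
  rw [q_fc, q_fc]
  constructor
  · rw [← h2, nsq, Finset.mul_sum, Finset.mul_sum, Finset.mul_sum, ← Finset.sum_add_distrib]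
    refine Finset.sum_le_sum fun i _ => ?_
    by_cases hij : i < j
    · have h0 : u' i = 0 := hu i hij
      rw [← hu', h0]
      simp only [map_zero, mul_zero, zero_sub, Complex.normSq_neg]
      have := mul_nonneg (hy0 i) (Complex.normSq_nonneg (v' i))
      have := mul_nonneg (hy0 j) (Complex.normSq_nonneg (v' i))
      rw [← hv']
      linarith
    · have hji : y i ≤ y j := hy (le_of_not_gt hij)
      have h4 : 2 * (c ^ 2 * Complex.normSq (u' i)) ≤ Complex.normSq (v' i) +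
          Complex.normSq (((2 * c : ℝ) : ℂ) * u' i - v' i) := by
        simp only [Complex.normSq_apply, Complex.sub_re, Complex.sub_im, Complex.mul_re,
          Complex.mul_im, Complex.ofReal_re, Complex.ofReal_im]
        nlinarith [sq_nonneg (c * (u' i).re - (v' i).re), sq_nonneg (c * (u' i).im - (v' i).im)]
      have h5 := mul_le_mul_of_nonneg_left h4 (hy0 i)
      have h6 := mul_le_mul_of_nonneg_right hji
        (Complex.normSq_nonneg (((2 * c : ℝ) : ℂ) * u' i - v' i))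
      rw [← hu', ← hv']
      nlinarith
  · have h7 : y j * nsq v ≥ y j * (c ^ 2 * nsq u') := by
      rw [hnu]
      exact mul_le_mul_of_nonneg_left h3 (hy0 j)
    refine le_trans ?_ h7
    rw [nsq, Finset.mul_sum, Finset.mul_sum, Finset.mul_sum]
    refine Finset.sum_le_sum fun i _ => ?_
    by_cases hij : i < j
    · have h0 : u' i = 0 := hu i hij
      rw [← hu', h0]
      simp
    · have hji : y i ≤ y j := hy (le_of_not_gt hij)
      rw [← hu']
      have h8 := mul_le_mul_of_nonneg_right hji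
        (mul_nonneg (sq_nonneg c) (Complex.normSq_nonneg (u' i)))
      linarith

/-- Jensen's inequality for the quadratic form of a power. -/
lemma q_rpow_le {U : Matrix (Fin n) (Fin n) ℂ} (hU : U ∈ unitaryGroup (Fin n) ℂ)
    {x : Fin n → ℝ} (hx : ∀ i, 0 ≤ x i) {t a : ℝ} (ht : 0 < t) (ht2 : t ≤ 1 / 2) (ha : 0 < a)
    (u : Fin n → ℂ) :
    q (fc U fun i => x i ^ (1 - 2 * t)) u ≤
      (1 - 2 * t) * ((a ^ 2)⁻¹ * q (fc U x) u) + 2 * t * a ^ (1 / t - 2) * nsq u := by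
  rw [← nsq_star_unitary hU u, q_fc, q_fc, nsq, Finset.mul_sum, Finset.mul_sum, Finset.mul_sum,
    ← Finset.sum_add_distrib]
  refine Finset.sum_le_sum fun i _ => ?_
  have h1 := mul_le_mul_of_nonneg_right (scalar_one ht ht2 ha (hx i))
    (Complex.normSq_nonneg ((star U *ᵥ u) i))
  linarith

/-- The moment inequality. -/
lemma moment {U : Matrix (Fin n) (Fin n) ℂ}
    {x : Fin n → ℝ} (hx : ∀ i, 0 ≤ x i) {t a : ℝ} (ht : 0 < t) (ht2 : t ≤ 1 / 2) (ha : 0 < a)
    {v : Fin n → ℂ} {x1 x2 : ℝ} (h1 : x1 = ∑ i, x i ^ t * Complex.normSq ((star U *ᵥ v) i))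
    (h2 : x2 = ∑ i, x i ^ (2 * t) * Complex.normSq ((star U *ᵥ v) i)) (h : a * x1 = x2) :
    a ^ (1 / t - 2) * x2 ≤ q (fc U x) v := by
  generalize hp : (fun i => Complex.normSq ((star U *ᵥ v) i)) = p at *
  have hp' : ∀ i, Complex.normSq ((star U *ᵥ v) i) = p i := fun i => congrFun hp i
  have hp0 : ∀ i, 0 ≤ p i := fun i => by rw [← hp' i]; exact Complex.normSq_nonneg _
  simp only [hp'] at h1 h2
  have hq : q (fc U x) v = ∑ i, x i * p i := by
    rw [q_fc]
    exact Finset.sum_congr rfl fun i _ => by rw [hp']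
  rw [hq]
  generalize hK : a ^ (1 / t - 2) = K
  have h3 : (1 - t) * (K * x2) ≤ t * ∑ i, x i * p i + (1 - 2 * t) * (K * a * x1) := by
    rw [h2, h1, Finset.mul_sum, Finset.mul_sum, Finset.mul_sum, Finset.mul_sum,
      Finset.mul_sum, ← Finset.sum_add_distrib]
    refine Finset.sum_le_sum fun i _ => ?_
    have h4 := mul_le_mul_of_nonneg_right (scalar_two ht ht2 ha (hx i)) (hp0 i)
    rw [hK] at h4
    linarith
  rw [mul_assoc K, h] at h3
  have h4 : t * (K * x2) ≤ t * ∑ i, x i * p i := by linarith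
  exact le_of_mul_le_mul_left h4 ht

/-- The inequality for one vector. -/
lemma vector_ineq {U V E : Matrix (Fin n) (Fin n) ℂ} (hU : U ∈ unitaryGroup (Fin n) ℂ)
    (hV : V ∈ unitaryGroup (Fin n) ℂ) (hE : E ∈ unitaryGroup (Fin n) ℂ)
    {x z y : Fin n → ℝ} (hx : ∀ i, 0 ≤ x i) (hz : ∀ i, 0 ≤ z i) (hy : Antitone y)
    (hy0 : ∀ i, 0 ≤ y i) (hH : ∀ v, 2 * q (fc E y) v = q (fc U x) v + q (fc V z) v)
    {t θ : ℝ} (ht : 0 < t) (ht2 : t ≤ 1 / 2) (hθ1 : θ ≤ 1 - 2 * t)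
    (hθ2 : 1 - 2 * t ≤ 2 * θ) (j : Fin n) (v : Fin n → ℂ)
    (hv : ∀ i < j, (star E *ᵥ (fc U (fun i => x i ^ t) *ᵥ v)) i = 0) :
    q (fc U fun i => x i ^ (1 - 2 * t)) (fc U (fun i => x i ^ t) *ᵥ v) +
      q (fc V fun i => z i ^ (1 - 2 * t)) (fc U (fun i => x i ^ t) *ᵥ v) ≤
      2 * (2 * t * q (fc U x) v + (1 - 2 * t - θ) * q (fc E y) v + θ * (y j * nsq v)) := by
  set u := fc U (fun i => x i ^ t) *ᵥ v with hu
  have hHv : 0 ≤ q (fc E y) v := by
    rw [q_fc]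
    exact Finset.sum_nonneg fun i _ => mul_nonneg (hy0 i) (Complex.normSq_nonneg _)
  have hAv : 0 ≤ q (fc U x) v := by
    rw [q_fc]
    exact Finset.sum_nonneg fun i _ => mul_nonneg (hx i) (Complex.normSq_nonneg _)
  have hcoord : ∀ i, (star U *ᵥ u) i = ((x i ^ t : ℝ) : ℂ) * (star U *ᵥ v) i :=
    fun i => fc_mulVec_coord hU _ v i
  have hnu : nsq u = ∑ i, x i ^ (2 * t) * Complex.normSq ((star U *ᵥ v) i) := by
    rw [← nsq_star_unitary hU u, nsq]
    refine Finset.sum_congr rfl fun i _ => ?_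
    rw [hcoord, map_mul, Complex.normSq_ofReal, ← Real.rpow_add_of_nonneg (hx i) ht.le ht.le]
    ring_nf
  have hx1 : (star v ⬝ᵥ u).re = ∑ i, x i ^ t * Complex.normSq ((star U *ᵥ v) i) := by
    have := q_fc U (fun i => x i ^ t) v
    rwa [q] at this
  by_cases hu0 : nsq u = 0
  · have h0 : u = 0 := nsq_eq_zero hu0
    rw [h0]
    have h1 : ∀ M : Matrix (Fin n) (Fin n) ℂ, q M 0 = 0 := by
      intro M; simp [q]
    rw [h1, h1]
    have h2 : 0 ≤ y j * nsq v := mul_nonneg (hy0 j) (nsq_nonneg v)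
    have hθ0 : 0 ≤ θ := by linarith
    have h3 : 0 ≤ θ * (y j * nsq v) := mul_nonneg hθ0 h2
    have h4 : 0 ≤ (1 - 2 * t - θ) * q (fc E y) v := mul_nonneg (by linarith) hHv
    have h5 : 0 ≤ 2 * t * q (fc U x) v := mul_nonneg (by linarith) hAv
    linarith
  have hx2pos : 0 < nsq u := lt_of_le_of_ne (nsq_nonneg u) (Ne.symm hu0)
  have hx1pos : 0 < (star v ⬝ᵥ u).re := by
    rw [hx1]
    have hnn : ∀ i ∈ Finset.univ, 0 ≤ x i ^ t * Complex.normSq ((star U *ᵥ v) i) :=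
      fun i _ => mul_nonneg (Real.rpow_nonneg (hx i) _) (Complex.normSq_nonneg _)
    refine lt_of_le_of_ne (Finset.sum_nonneg hnn) fun h => hu0 ?_
    have h1 := (Finset.sum_eq_zero_iff_of_nonneg hnn).1 h.symm
    rw [hnu]
    refine Finset.sum_eq_zero fun i hi => ?_
    rw [show 2 * t = t + t by ring, Real.rpow_add_of_nonneg (hx i) ht.le ht.le, mul_assoc, h1 i hi,
      mul_zero]
  set x1 := (star v ⬝ᵥ u).re with hx1def
  set a := nsq u / x1 with ha
  have hapos : 0 < a := div_pos hx2pos hx1pos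
  set K := a ^ (1 / t - 2) with hK
  have hKpos : 0 < K := Real.rpow_pos_of_pos hapos _
  -- the moment inequality
  have hmom : K * nsq u ≤ q (fc U x) v :=
    moment hx ht ht2 hapos hx1 hnu (div_mul_cancel₀ _ hx1pos.ne')
  have hA := q_rpow_le hU hx ht ht2 hapos u
  have hB := q_rpow_le hV hz ht ht2 hapos u
  have hHu := hH u
  obtain ⟨hr1, hr2⟩ := reflection hE hy hy0 j (u := u) (v := v) hv (c := x1 / nsq u)
    (by rw [div_mul_cancel₀ _ hx2pos.ne'])
  have hc2 : (x1 / nsq u) ^ 2 = (a ^ 2)⁻¹ := by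
    rw [ha, div_pow, div_pow, inv_div]
  rw [hc2] at hr1 hr2
  set Q := (a ^ 2)⁻¹ * q (fc E y) u with hQ
  rw [← hK] at hA hB
  have hsum : q (fc U fun i => x i ^ (1 - 2 * t)) u + q (fc V fun i => z i ^ (1 - 2 * t)) u ≤
      2 * ((1 - 2 * t) * Q + 2 * t * (K * nsq u)) := by
    have : 2 * Q = (a ^ 2)⁻¹ * q (fc U x) u + (a ^ 2)⁻¹ * q (fc V z) u := by
      rw [hQ, ← mul_add, ← hHu]
      ring
    have h5 : 2 * ((1 - 2 * t) * Q) = (1 - 2 * t) * ((a ^ 2)⁻¹ * q (fc U x) u) +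
        (1 - 2 * t) * ((a ^ 2)⁻¹ * q (fc V z) u) := by
      rw [← mul_add, ← this]; ring
    linarith
  have h6 : 2 * t * (K * nsq u) ≤ 2 * t * q (fc U x) v :=
    mul_le_mul_of_nonneg_left hmom (by linarith)
  have h7 : (1 - 2 * t) * Q ≤ (1 - 2 * t - θ) * q (fc E y) v + θ * (y j * nsq v) := by
    have h8 := mul_le_mul_of_nonneg_left hr1 (by linarith : 0 ≤ 1 - 2 * t - θ)
    have h9 := mul_le_mul_of_nonneg_left hr2 (by linarith : 0 ≤ 2 * θ - (1 - 2 * t))
    linarith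
  linarith

end Pool.Agent.BourinQ
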