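import Pool.Agent.Lib.MP_4777ae_an.Minimax

/-!
# Unitarily invariant norms
-/

set_option autoImplicit false

open Matrix

namespace Pool.Agent.BourinQ

variable {n : ℕ}

/-- A unitarily invariant seminorm on the complex `n × n` matrices. -/
structure UINorm (N : Matrix (Fin n) (Fin n) ℂ → ℝ) : Prop where
  smul : ∀ (c : ℂ) (X : Matrix (Fin n) (Fin n) ℂ), N (c • X) = ‖c‖ * N X
  add : ∀ X Y, N (X + Y) ≤ N X + N Y
  unitary : ∀ U ∈ unitaryGroup (Fin n) ℂ, ∀ V ∈ unitaryGroup (Fin n) ℂ, ∀ X, N (U * X * V) = N X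

variable {N : Matrix (Fin n) (Fin n) ℂ → ℝ}

lemma UINorm.left (hN : UINorm N) {U : Matrix (Fin n) (Fin n) ℂ}
    (hU : U ∈ unitaryGroup (Fin n) ℂ) (X : Matrix (Fin n) (Fin n) ℂ) : N (U * X) = N X := by
  have := hN.unitary U hU 1 (one_mem _) X
  rwa [Matrix.mul_one] at this

lemma UINorm.conj (hN : UINorm N) {U : Matrix (Fin n) (Fin n) ℂ}
    (hU : U ∈ unitaryGroup (Fin n) ℂ) (X : Matrix (Fin n) (Fin n) ℂ) :
    N (star U * X * U) = N X :=
  hN.unitary _ (Unitary.star_mem hU) U hU X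

lemma UINorm.fc' (hN : UINorm N) {U : Matrix (Fin n) (Fin n) ℂ}
    (hU : U ∈ unitaryGroup (Fin n) ℂ) (x : Fin n → ℝ) :
    N (fc U x) = N (diagonal fun i => (x i : ℂ)) :=
  hN.unitary U hU _ (Unitary.star_mem hU) _

lemma UINorm.smul_nonneg (hN : UINorm N) {c : ℝ} (hc : 0 ≤ c) (X : Matrix (Fin n) (Fin n) ℂ) :
    N ((c : ℂ) • X) = c * N X := by
  rw [hN.smul, Complex.norm_real, Real.norm_of_nonneg hc]

lemma phase_mem (c : Fin n → ℝ) (hc : ∀ i, c i ∈ Set.Icc (0 : ℝ) 1) (s : ℝ) (hs : s ^ 2 = 1) :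
    (diagonal fun i => ((c i : ℂ) + (s * Real.sqrt (1 - c i ^ 2) : ℝ) * Complex.I)) ∈
      unitaryGroup (Fin n) ℂ := by
  rw [mem_unitaryGroup_iff', star_eq_conjTranspose, diagonal_conjTranspose, diagonal_mul_diagonal,
    ← diagonal_one]
  congr 1
  ext i
  simp only [Pi.star_apply, Complex.star_def]
  rw [← Complex.normSq_eq_conj_mul_self, Complex.normSq_add_mul_I, mul_pow, hs, one_mul,
    Real.sq_sqrt (by nlinarith [(hc i).1, (hc i).2])]
  norm_num

lemma UINorm.diag_le (hN : UINorm N) {x y : Fin n → ℝ} (hx : ∀ i, 0 ≤ x i)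
    (hxy : ∀ i, x i ≤ y i) :
    N (diagonal fun i => (x i : ℂ)) ≤ N (diagonal fun i => (y i : ℂ)) := by
  set c : Fin n → ℝ := fun i => x i / y i with hc
  have hc1 : ∀ i, c i ∈ Set.Icc (0 : ℝ) 1 := fun i =>
    ⟨div_nonneg (hx i) ((hx i).trans (hxy i)), div_le_one_of_le₀ (hxy i) ((hx i).trans (hxy i))⟩
  have hcy : ∀ i, c i * y i = x i := by
    intro i
    by_cases h : y i = 0
    · have : x i = 0 := le_antisymm (h ▸ hxy i) (hx i)
      rw [this, h, mul_zero]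
    · exact div_mul_cancel₀ _ h
  set D : ℝ → Matrix (Fin n) (Fin n) ℂ := fun s =>
    diagonal fun i => ((c i : ℂ) + (s * Real.sqrt (1 - c i ^ 2) : ℝ) * Complex.I) with hD
  set Y : Matrix (Fin n) (Fin n) ℂ := diagonal fun i => (y i : ℂ) with hY
  have h1 : (diagonal fun i => (x i : ℂ)) =
      ((1 / 2 : ℝ) : ℂ) • (D 1 * Y + D (-1) * Y) := by
    rw [hD, hY]
    simp only [diagonal_mul_diagonal, diagonal_add]
    rw [← diagonal_smul]
    congr 1
    ext i
    rw [← hcy i]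
    simp only [Pi.smul_apply, smul_eq_mul]
    push_cast
    ring
  rw [h1, hN.smul_nonneg (by norm_num)]
  have h2 := hN.add (D 1 * Y) (D (-1) * Y)
  rw [hN.left (phase_mem c hc1 1 (by norm_num)), hN.left (phase_mem c hc1 (-1) (by norm_num))] at h2
  linarith

/-- Monotonicity. -/
lemma UINorm.mono (hN : UINorm N) {x : Fin n → ℝ} (hx : ∀ i, 0 ≤ x i)
    {Q : Matrix (Fin n) (Fin n) ℂ} (hQ : Q.IsHermitian)
    (h : ∀ v, q (diagonal fun i => (x i : ℂ)) v ≤ q Q v) :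
    N (diagonal fun i => (x i : ℂ)) ≤ N Q := by
  obtain ⟨E, hE, y, hy, rfl⟩ := exists_spectral hQ
  obtain ⟨W, hW, σ, hσ, hfc⟩ := exists_sorted (U := (1 : Matrix (Fin n) (Fin n) ℂ)) (one_mem _) x
  have h1 : fc (1 : Matrix (Fin n) (Fin n) ℂ) x = diagonal fun i => (x i : ℂ) := by
    simp [fc]
  rw [h1] at hfc
  have h2 : ∀ j, (x ∘ σ) j ≤ y j := by
    refine minimax hW hσ (star E) y fun j v hv => ?_
    rw [hfc]
    refine (h v).trans ?_
    rw [q_fc, ← nsq_star_unitary hE v, nsq, Finset.mul_sum]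
    refine Finset.sum_le_sum fun i _ => ?_
    by_cases hij : i < j
    · rw [hv i hij]
      simp
    · exact mul_le_mul_of_nonneg_right (hy (le_of_not_gt hij)) (Complex.normSq_nonneg _)
  rw [← hfc, hN.fc' hW, hN.fc' hE]
  exact hN.diag_le (fun i => hx _) h2

end Pool.Agent.BourinQ
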