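import Pool.Agent.Lib.MP_4777ae_an.Key
import Pool.Agent.Lib.MP_4777ae_an.Norm

/-!
# Bourin's inequality
-/

set_option autoImplicit false

open Matrix

namespace Pool.Agent.BourinQ

variable {n : ℕ}

lemma isHermitian_fc (U : Matrix (Fin n) (Fin n) ℂ) (x : Fin n → ℝ) : (fc U x).IsHermitian :=
  star_fc U x

lemma herm_smul (c : ℝ) {M : Matrix (Fin n) (Fin n) ℂ} (hM : M.IsHermitian) :
    ((c : ℂ) • M).IsHermitian := by
  rw [IsHermitian, conjTranspose_smul, hM]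
  simp

/-- Half of the sum of two positive semidefinite matrices, in diagonal form. -/
lemma exists_mean {U V : Matrix (Fin n) (Fin n) ℂ} {x z : Fin n → ℝ} (hx : ∀ i, 0 ≤ x i)
    (hz : ∀ i, 0 ≤ z i) :
    ∃ E ∈ unitaryGroup (Fin n) ℂ, ∃ y : Fin n → ℝ, Antitone y ∧ (∀ i, 0 ≤ y i) ∧
      fc U x + fc V z = ((2 : ℝ) : ℂ) • fc E y ∧
      ∀ v, 2 * q (fc E y) v = q (fc U x) v + q (fc V z) v := by
  have hS : (((1 / 2 : ℝ) : ℂ) • (fc U x + fc V z)).IsHermitian := by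
    rw [IsHermitian, conjTranspose_smul, conjTranspose_add, isHermitian_fc U x, isHermitian_fc V z]
    simp
  obtain ⟨E, hE, y, hy, hEy⟩ := exists_spectral hS
  have hq : ∀ v, 2 * q (fc E y) v = q (fc U x) v + q (fc V z) v := by
    intro v
    rw [← hEy, q_smul, q_add]
    ring
  refine ⟨E, hE, y, hy, ?_, ?_, hq⟩
  · intro i
    have h1 := hq (E *ᵥ Pi.single i 1)
    have hEE : star E * E = 1 := (mem_unitaryGroup_iff').1 hE
    have h2 : q (fc E y) (E *ᵥ Pi.single i 1) = y i := by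
      rw [q_fc, mulVec_mulVec, hEE, one_mulVec, Finset.sum_eq_single i]
      · simp
      · intro k _ hk
        simp [Pi.single_eq_of_ne hk]
      · simp
    have h3 : ∀ (U : Matrix (Fin n) (Fin n) ℂ) (x : Fin n → ℝ), (∀ i, 0 ≤ x i) → ∀ v,
        0 ≤ q (fc U x) v := by
      intro U x hx v
      rw [q_fc]
      exact Finset.sum_nonneg fun i _ => mul_nonneg (hx i) (Complex.normSq_nonneg _)
    have h4 := h3 U x hx (E *ᵥ Pi.single i 1)
    have h5 := h3 V z hz (E *ᵥ Pi.single i 1)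
    linarith
  · rw [← hEy, smul_smul, ← Complex.ofReal_mul]
    norm_num

/-- The key operator inequality. -/
lemma key {U V E : Matrix (Fin n) (Fin n) ℂ} (hU : U ∈ unitaryGroup (Fin n) ℂ)
    (hV : V ∈ unitaryGroup (Fin n) ℂ) (hE : E ∈ unitaryGroup (Fin n) ℂ)
    {x z y : Fin n → ℝ} (hx : ∀ i, 0 ≤ x i) (hz : ∀ i, 0 ≤ z i) (hy : Antitone y)
    (hy0 : ∀ i, 0 ≤ y i) (hH : ∀ v, 2 * q (fc E y) v = q (fc U x) v + q (fc V z) v)
    {t θ : ℝ} (ht : 0 < t) (ht2 : t ≤ 1 / 2) (hθ1 : θ ≤ 1 - 2 * t)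
    (hθ2 : 1 - 2 * t ≤ 2 * θ) :
    ∃ W ∈ unitaryGroup (Fin n) ℂ, ∀ v,
      q (fc U fun i => x i ^ (1 - 2 * t)) (fc U (fun i => x i ^ t) *ᵥ v) +
        q (fc V fun i => z i ^ (1 - 2 * t)) (fc U (fun i => x i ^ t) *ᵥ v) ≤
      2 * (2 * t * q (fc U x) v + (1 - 2 * t - θ) * q (fc E y) v + θ * q (fc W y) v) := by
  set a := fc U (fun i => x i ^ t) with ha
  set T : Matrix (Fin n) (Fin n) ℂ :=
    star a * (fc U (fun i => x i ^ (1 - 2 * t)) + fc V (fun i => z i ^ (1 - 2 * t))) * a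
      - (((2 * (2 * t) : ℝ) : ℂ) • fc U x + ((2 * (1 - 2 * t - θ) : ℝ) : ℂ) • fc E y) with hT
  have hTh : T.IsHermitian :=
    (isHermitian_conjTranspose_mul_mul a ((isHermitian_fc U _).add (isHermitian_fc V _))).sub
      ((herm_smul _ (isHermitian_fc U x)).add (herm_smul _ (isHermitian_fc E y)))
  have hqT : ∀ v, q T v = q (fc U fun i => x i ^ (1 - 2 * t)) (a *ᵥ v) +
        q (fc V fun i => z i ^ (1 - 2 * t)) (a *ᵥ v) -
        (2 * (2 * t) * q (fc U x) v + 2 * (1 - 2 * t - θ) * q (fc E y) v) := by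
    intro v
    rw [hT, q_sub, q_conj', q_add, q_add, q_smul, q_smul]
  obtain ⟨W, hW, lam, hlam, hTW⟩ := exists_spectral hTh
  have hle : ∀ j, lam j ≤ 2 * θ * y j := by
    refine minimax hW hlam (star E * a) (fun j => 2 * θ * y j) fun j v hv => ?_
    rw [← hTW, hqT]
    have hv' : ∀ i < j, (star E *ᵥ (a *ᵥ v)) i = 0 := by
      intro i hi
      rw [mulVec_mulVec]
      exact hv i hi
    have := vector_ineq hU hV hE hx hz hy hy0 hH ht ht2 hθ1 hθ2 j v hv'
    linarith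
  refine ⟨W, hW, fun v => ?_⟩
  have h1 : q T v ≤ 2 * θ * q (fc W y) v := by
    rw [hTW, q_fc, q_fc, Finset.mul_sum]
    refine Finset.sum_le_sum fun i _ => ?_
    rw [← mul_assoc]
    exact mul_le_mul_of_nonneg_right (hle i) (Complex.normSq_nonneg _)
  rw [hqT] at h1
  linarith

/-- The norm inequality for a sum of two products. -/
lemma UINorm.sum_two {N : Matrix (Fin n) (Fin n) ℂ → ℝ} (hN : UINorm N)
    (Y₁ Y₂ Z₁ Z₂ K S : Matrix (Fin n) (Fin n) ℂ) (hK : K.IsHermitian) (hS : S.IsHermitian)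
    (hY : ∀ v, nsq (star Y₁ *ᵥ v) + nsq (star Y₂ *ᵥ v) ≤ q K v)
    (hZ : ∀ v, nsq (star Z₁ *ᵥ v) + nsq (star Z₂ *ᵥ v) ≤ q S v) :
    2 * N (Y₁ * star Z₁ + Y₂ * star Z₂) ≤ N K + N S := by
  obtain ⟨U, hU, V, hV, x, hx, hX⟩ := exists_svd (Y₁ * star Z₁ + Y₂ * star Z₂)
  set Q : Matrix (Fin n) (Fin n) ℂ := ((1 / 2 : ℝ) : ℂ) • (star U * K * U + star V * S * V) with hQ
  have hQh : Q.IsHermitian := by
    rw [hQ, IsHermitian, conjTranspose_smul, conjTranspose_add, conjTranspose_mul,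
      conjTranspose_mul, conjTranspose_mul, conjTranspose_mul, hK, hS, star_eq_conjTranspose,
      star_eq_conjTranspose, conjTranspose_conjTranspose, conjTranspose_conjTranspose]
    simp only [Complex.star_def, Complex.conj_ofReal, Matrix.mul_assoc]
  have hUU : star U * U = 1 := (mem_unitaryGroup_iff').1 hU
  have hVV : star V * V = 1 := (mem_unitaryGroup_iff').1 hV
  have hD : (diagonal fun i => (x i : ℂ)) = star U * (Y₁ * star Z₁ + Y₂ * star Z₂) * V := by
    rw [hX]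
    calc (diagonal fun i => (x i : ℂ)) = (star U * U) * (diagonal fun i => (x i : ℂ)) * (star V * V) := by
          rw [hUU, hVV, Matrix.one_mul, Matrix.mul_one]
      _ = _ := by simp only [Matrix.mul_assoc]
  have key : ∀ (Y Z : Matrix (Fin n) (Fin n) ℂ) (v : Fin n → ℂ),
      2 * q (star U * (Y * star Z) * V) v ≤ nsq (star Y *ᵥ (U *ᵥ v)) + nsq (star Z *ᵥ (V *ᵥ v)) := by
    intro Y Z v
    have h1 : q (star U * (Y * star Z) * V) v =
        (star (star Y *ᵥ (U *ᵥ v)) ⬝ᵥ (star Z *ᵥ (V *ᵥ v))).re := by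
      rw [q]
      congr 1
      rw [star_mulVec, star_mulVec, ← dotProduct_mulVec, ← dotProduct_mulVec, mulVec_mulVec,
        mulVec_mulVec, mulVec_mulVec, star_eq_conjTranspose, star_eq_conjTranspose,
        star_eq_conjTranspose, conjTranspose_conjTranspose]
      simp only [Matrix.mul_assoc]
    rw [h1]
    simp only [nsq, dotProduct, Pi.star_apply, Complex.re_sum, Finset.mul_sum,
      ← Finset.sum_add_distrib]
    refine Finset.sum_le_sum fun i _ => ?_
    simp only [Complex.normSq_apply, Complex.mul_re, Complex.star_def, Complex.conj_re,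
      Complex.conj_im]
    nlinarith [sq_nonneg ((star Y *ᵥ U *ᵥ v) i).re, sq_nonneg (((star Y *ᵥ U *ᵥ v) i).re -
      ((star Z *ᵥ V *ᵥ v) i).re), sq_nonneg (((star Y *ᵥ U *ᵥ v) i).im -
      ((star Z *ᵥ V *ᵥ v) i).im)]
  have hle : ∀ v, q (diagonal fun i => (x i : ℂ)) v ≤ q Q v := by
    intro v
    rw [hD, hQ, q_smul, q_add, q_conj', q_conj', Matrix.mul_add, Matrix.add_mul, q_add]
    have h1 := key Y₁ Z₁ v
    have h2 := key Y₂ Z₂ v
    have h3 := hY (U *ᵥ v)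
    have h4 := hZ (V *ᵥ v)
    linarith
  have h5 := hN.mono hx hQh hle
  have h6 : N (Y₁ * star Z₁ + Y₂ * star Z₂) = N (diagonal fun i => (x i : ℂ)) := by
    rw [hX]
    exact hN.unitary U hU _ (Unitary.star_mem hV) _
  have h7 : N Q ≤ 1 / 2 * (N K + N S) := by
    rw [hQ, hN.smul_nonneg (by norm_num)]
    have := hN.add (star U * K * U) (star V * S * V)
    rw [hN.conj hU, hN.conj hV] at this
    linarith
  rw [h6]
  linarith

end Pool.Agent.BourinQ
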