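import Pool.Agent.Lib.MP_4777ae_an.Basic

/-!
# Sorted spectral data, a minimax bound, and the singular value decomposition
-/

set_option autoImplicit false

open Matrix

namespace Pool.Agent.BourinQ

variable {n : ℕ}

lemma exists_sorted {U : Matrix (Fin n) (Fin n) ℂ} (hU : U ∈ unitaryGroup (Fin n) ℂ)
    (x : Fin n → ℝ) : ∃ W ∈ unitaryGroup (Fin n) ℂ, ∃ σ : Equiv.Perm (Fin n),
      Antitone (x ∘ σ) ∧ fc W (x ∘ σ) = fc U x := by
  set σ : Equiv.Perm (Fin n) := Tuple.sort (fun i => - x i) with hσ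
  have hmono : Monotone ((fun i => - x i) ∘ σ) := Tuple.monotone_sort _
  refine ⟨U.submatrix id σ, ?_, σ, ?_, ?_⟩
  · rw [mem_unitaryGroup_iff', star_eq_conjTranspose, conjTranspose_submatrix]
    have h1 : Uᴴ * U = 1 := (mem_unitaryGroup_iff').1 hU
    have h2 : Uᴴ.submatrix σ id * U.submatrix id σ = (Uᴴ * U).submatrix σ σ := by
      rw [← submatrix_mul_equiv Uᴴ U σ (Equiv.refl _) σ]
      rfl
    rw [h2, h1, submatrix_one_equiv]
  · intro i j hij
    have := hmono hij
    simp only [Function.comp_apply] at this ⊢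
    linarith
  · simp only [fc]
    have h1 : diagonal (fun i => ((x ∘ σ) i : ℂ)) =
        (diagonal fun i => (x i : ℂ)).submatrix σ σ := by
      rw [submatrix_diagonal_equiv]
      rfl
    rw [h1, star_eq_conjTranspose, conjTranspose_submatrix]
    rw [submatrix_mul_equiv, submatrix_mul_equiv, submatrix_id_id]
    rfl

/-- The spectral theorem with eigenvalues in decreasing order. -/
lemma exists_spectral {T : Matrix (Fin n) (Fin n) ℂ} (hT : T.IsHermitian) :
    ∃ W ∈ unitaryGroup (Fin n) ℂ, ∃ x : Fin n → ℝ, Antitone x ∧ T = fc W x := by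
  obtain ⟨W, hW, σ, h1, h2⟩ := exists_sorted hT.eigenvectorUnitary.2 hT.eigenvalues
  refine ⟨W, hW, _, h1, ?_⟩
  rw [h2]
  exact hT.spectral_theorem

/-- A minimax bound for the eigenvalues of a Hermitian matrix. -/
lemma minimax {W : Matrix (Fin n) (Fin n) ℂ} (hW : W ∈ unitaryGroup (Fin n) ℂ)
    {lam : Fin n → ℝ} (hlam : Antitone lam) (G : Matrix (Fin n) (Fin n) ℂ) (x : Fin n → ℝ)
    (h : ∀ (j : Fin n) (v : Fin n → ℂ), (∀ i < j, (G *ᵥ v) i = 0) →
      q (fc W lam) v ≤ x j * nsq v) (j : Fin n) : lam j ≤ x j := by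
  classical
  set M : Matrix (Fin n) (Fin n) ℂ := Matrix.of fun i k =>
    if i < j then (G * W) i k else if i = j then 0 else (1 : Matrix (Fin n) (Fin n) ℂ) i k with hM
  have hdet : M.det = 0 := by
    apply det_eq_zero_of_row_eq_zero j
    intro k
    simp [hM]
  obtain ⟨c, hc0, hc⟩ := exists_mulVec_eq_zero_iff.2 hdet
  have h1 : ∀ i < j, (G *ᵥ (W *ᵥ c)) i = 0 := by
    intro i hi
    have := congrFun hc i
    rw [mulVec_mulVec]
    simpa [hM, mulVec, dotProduct, hi] using this
  have h2 : ∀ i, j < i → c i = 0 := by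
    intro i hi
    have := congrFun hc i
    simpa [hM, mulVec, dotProduct, hi.not_gt, hi.ne', Matrix.one_apply] using this
  have h3 := h j (W *ᵥ c) h1
  have hWW : star W * W = 1 := (mem_unitaryGroup_iff').1 hW
  rw [q_fc, mulVec_mulVec, hWW, one_mulVec, nsq_unitary hW] at h3
  have h4 : lam j * nsq c ≤ ∑ i, lam i * Complex.normSq (c i) := by
    rw [nsq, Finset.mul_sum]
    refine Finset.sum_le_sum fun i _ => ?_
    by_cases hij : i ≤ j
    · exact mul_le_mul_of_nonneg_right (hlam hij) (Complex.normSq_nonneg _)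
    · rw [h2 i (lt_of_not_ge hij)]
      simp
  exact le_of_mul_le_mul_right (h4.trans h3) (nsq_pos hc0)

/-- The singular value decomposition. -/
lemma exists_svd (X : Matrix (Fin n) (Fin n) ℂ) :
    ∃ U ∈ unitaryGroup (Fin n) ℂ, ∃ V ∈ unitaryGroup (Fin n) ℂ, ∃ x : Fin n → ℝ,
      (∀ i, 0 ≤ x i) ∧ X = U * diagonal (fun i => (x i : ℂ)) * star V := by
  classical
  have hX : (Xᴴ * X).IsHermitian := isHermitian_conjTranspose_mul_self X
  set V : Matrix (Fin n) (Fin n) ℂ := (hX.eigenvectorUnitary : Matrix (Fin n) (Fin n) ℂ) with hV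
  have hVm : V ∈ unitaryGroup (Fin n) ℂ := hX.eigenvectorUnitary.2
  have hVV : star V * V = 1 := (mem_unitaryGroup_iff').1 hVm
  have hVV' : V * star V = 1 := (mem_unitaryGroup_iff).1 hVm
  set l := hX.eigenvalues with hl
  have hsp : Xᴴ * X = V * diagonal (fun i => (l i : ℂ)) * star V := hX.spectral_theorem
  have hYY : (X * V)ᴴ * (X * V) = diagonal (fun i => (l i : ℂ)) := by
    rw [conjTranspose_mul]
    calc Vᴴ * Xᴴ * (X * V) = Vᴴ * (Xᴴ * X) * V := by simp only [Matrix.mul_assoc]
      _ = (star V * V) * diagonal (fun i => (l i : ℂ)) * (star V * V) := by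
        rw [hsp, star_eq_conjTranspose]; simp only [Matrix.mul_assoc]
      _ = _ := by rw [hVV, Matrix.one_mul, Matrix.mul_one]
  set f : Fin n → EuclideanSpace ℂ (Fin n) := fun i => WithLp.toLp 2 ((X * V)ᵀ i) with hf
  have hinner : ∀ i j, inner ℂ (f i) (f j) = diagonal (fun i => (l i : ℂ)) i j := by
    intro i j
    rw [← hYY, hf, EuclideanSpace.inner_toLp_toLp, Matrix.mul_apply]
    simp only [dotProduct, transpose_apply, conjTranspose_apply, Pi.star_apply]
    exact Finset.sum_congr rfl fun k _ => mul_comm _ _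
  have horth : Pairwise fun i j => inner ℂ (f i) (f j) = 0 := by
    intro i j hij
    rw [hinner, diagonal_apply_ne _ hij]
  have hcard : Module.finrank ℂ (EuclideanSpace ℂ (Fin n)) = Fintype.card (Fin n) :=
    finrank_euclideanSpace
  set b := InnerProductSpace.gramSchmidtOrthonormalBasis hcard f with hb
  refine ⟨(EuclideanSpace.basisFun (Fin n) ℂ).toBasis.toMatrix b.toBasis,
    (EuclideanSpace.basisFun (Fin n) ℂ).toMatrix_orthonormalBasis_mem_unitary b, V, hVm,
    fun i => ‖f i‖, fun i => norm_nonneg _, ?_⟩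
  have key : X * V = ((EuclideanSpace.basisFun (Fin n) ℂ).toBasis.toMatrix b.toBasis) *
      diagonal (fun i => ((‖f i‖ : ℝ) : ℂ)) := by
    ext k i
    rw [mul_diagonal]
    have h1 : ((EuclideanSpace.basisFun (Fin n) ℂ).toBasis.toMatrix b.toBasis) k i = b i k := by
      simp [Module.Basis.toMatrix_apply]
    rw [h1]
    have h2 : (X * V) k i = f i k := rfl
    rw [h2]
    by_cases h0 : f i = 0
    · simp [h0]
    · have h3 := InnerProductSpace.gramSchmidtOrthonormalBasis_apply_of_orthogonal hcard horth h0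
      rw [← hb] at h3
      rw [h3]
      have h4 : ((‖f i‖ : ℝ) : ℂ) ≠ 0 := by
        simpa using h0
      simp only [PiLp.smul_apply, smul_eq_mul]
      rw [mul_comm _ ((f i).ofLp k), mul_assoc]
      have h5 : (((‖f i‖ : ℂ))⁻¹ : ℂ) * ((‖f i‖ : ℝ) : ℂ) = 1 := inv_mul_cancel₀ h4
      erw [h5]
      rw [mul_one]
  rw [← key, Matrix.mul_assoc, hVV', Matrix.mul_one]

end Pool.Agent.BourinQ
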